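import Pool.Agent.D0H37.CB.Fin

set_option autoImplicit false

/-!
The number of the integers up to `x` with given abundancy: asymptotics.
-/

open scoped Classical
open Finset

namespace Pool.Agent.D0H37.CB

theorem exp_sum_le {N : ℕ} (hN : N ≠ 0) (F : Finset ℕ) (hF : F ⊆ N.primeFactors) (a : ℝ)
    (ha : ∀ p ∈ F, a ≤ Real.log p) :
    ((∑ p ∈ F, N.factorization p : ℕ) : ℝ) * a ≤ Real.log N := by
  have hlog : Real.log N = ∑ p ∈ N.primeFactors, (N.factorization p : ℝ) * Real.log p := by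
    have h0 : ∏ p ∈ N.primeFactors, p ^ (N.factorization p) = N :=
      Nat.prod_factorization_pow_eq_self hN
    have h1 : ∏ p ∈ N.primeFactors, (p : ℝ) ^ (N.factorization p) = N := by exact_mod_cast h0
    conv_lhs => rw [← h1]
    rw [Real.log_prod (fun p hp => by
      have := (Nat.prime_of_mem_primeFactors hp).pos
      positivity)]
    exact sum_congr rfl (fun p _ => Real.log_pow _ _)
  rw [hlog]
  push_cast
  rw [sum_mul]
  calc ∑ p ∈ F, (N.factorization p : ℝ) * a ≤ ∑ p ∈ F, (N.factorization p : ℝ) * Real.log p :=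
        sum_le_sum fun p hp => mul_le_mul_of_nonneg_left (ha p hp) (Nat.cast_nonneg _)
    _ ≤ _ := sum_le_sum_of_subset_of_nonneg hF fun p _ _ =>
        mul_nonneg (Nat.cast_nonneg _) (Real.log_natCast_nonneg p)

theorem kraft {E : Set ℕ} {ρ θ : ℝ} (hρ0 : 0 < ρ) (hρ1 : ρ ≤ 1) (hθ0 : 0 < θ) (hθ1 : θ < 1)
    (hsum : ∀ s : ℕ, ∑ e ∈ (Icc 1 s).filter (fun e => e ∈ E), ρ ^ e ≤ 1) (s : ℕ) :
    ∑ e ∈ Icc 1 s, (ρ * θ) ^ e *
      (if e ∈ E then 1 else 1 / (1 / ((1 - ρ * θ) * (1 - θ)))) ≤ 1 := by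
  have hr0 : 0 < ρ * θ := by positivity
  have hr1 : ρ * θ < 1 := by nlinarith
  have h1 : ∀ e ∈ Icc 1 s, (ρ * θ) ^ e *
      (if e ∈ E then 1 else 1 / (1 / ((1 - ρ * θ) * (1 - θ)))) ≤
      θ * (if e ∈ E then ρ ^ e else 0) + (ρ * θ) ^ e * ((1 - ρ * θ) * (1 - θ)) := by
    intro e he
    rw [mem_Icc] at he
    have hc : 0 < (1 - ρ * θ) * (1 - θ) := mul_pos (by linarith) (by linarith)
    have hre : 0 < (ρ * θ) ^ e := by positivity
    split_ifs with h
    · have h2 : (ρ * θ) ^ e ≤ θ * ρ ^ e := by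
        rw [mul_pow, mul_comm θ]
        apply mul_le_mul_of_nonneg_left _ (by positivity)
        calc θ ^ e ≤ θ ^ 1 := pow_le_pow_of_le_one hθ0.le hθ1.le he.1
          _ = θ := pow_one _
      have := mul_pos hre hc
      linarith
    · rw [one_div_one_div]
      simp
  refine (sum_le_sum h1).trans ?_
  rw [sum_add_distrib, ← mul_sum, ← sum_mul, ← sum_filter]
  have h2 : ∑ e ∈ Icc 1 s, (ρ * θ) ^ e ≤ 1 / (1 - ρ * θ) := by
    have h3 : ∑ e ∈ Icc 1 s, (ρ * θ) ^ e ≤ ∑ e ∈ range (s + 1), (ρ * θ) ^ e := by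
      apply sum_le_sum_of_subset_of_nonneg
      · intro e he
        rw [mem_Icc] at he
        exact mem_range.2 (by omega)
      · intro _ _ _
        positivity
    refine h3.trans ?_
    rw [le_div_iff₀ (by linarith)]
    rw [geom_sum_mul_neg]
    have : 0 ≤ (ρ * θ) ^ (s + 1) := by positivity
    linarith
  have h4 := mul_le_mul_of_nonneg_right h2 (mul_pos (show 0 < 1 - ρ * θ by linarith)
    (show 0 < 1 - θ by linarith)).le
  have h5 : 1 / (1 - ρ * θ) * ((1 - ρ * θ) * (1 - θ)) = 1 - θ := by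
    field_simp [show (1 - ρ * θ) ≠ 0 by linarith]
  rw [h5] at h4
  have h6 := mul_le_mul_of_nonneg_left (hsum s) hθ0.le
  linarith

theorem ex_sum (E : Set ℕ) (N : ℕ) : ∑ p ∈ N.primeFactors, ex E (N.factorization p) =
    (N.primeFactors.filter fun p => N.factorization p ∉ E).card := by
  rw [card_filter]
  refine sum_congr rfl fun p _ => ?_
  unfold ex
  by_cases h : N.factorization p ∈ E
  · rw [if_pos h, if_neg (not_not.2 h)]
  · rw [if_neg h, if_pos h]

/-- **Wirsing's theorem with a constant.** -/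
theorem main (E : Set ℕ) (ρ : ℝ) (hρ0 : 0 < ρ) (hρ1 : ρ ≤ 1)
    (hsum : ∀ s : ℕ, ∑ e ∈ (Icc 1 s).filter (fun e => e ∈ E), ρ ^ e ≤ 1) (ε : ℝ) (hε : 0 < ε) :
    ∃ (δ : ℝ) (x₀ : ℕ), 0 < δ ∧ ∀ a b : ℕ, 0 < b → ∀ x : ℕ, x₀ ≤ x →
      ((((Icc 1 x).filter fun n => b * ∑ d ∈ n.divisors, d = a * n ∧
        (((n.primeFactors.filter fun p => n.factorization p ∉ E).card : ℕ) : ℝ) ≤
          δ * (Real.log x / Real.log (Real.log x))).card : ℕ) : ℝ) ≤
        Real.exp ((Real.log (1 / ρ) + ε) * (Real.log x / Real.log (Real.log x))) := by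
  obtain ⟨θ, hθ⟩ : ∃ θ, θ = Real.exp (-(ε / 8)) := ⟨_, rfl⟩
  have hθ0 : 0 < θ := by rw [hθ]; exact Real.exp_pos _
  have hθ1 : θ < 1 := by
    rw [hθ, Real.exp_lt_one_iff]
    linarith
  obtain ⟨r, hr⟩ : ∃ r, r = ρ * θ := ⟨_, rfl⟩
  have hr0 : 0 < r := by rw [hr]; positivity
  have hr1 : r < 1 := by rw [hr]; nlinarith
  obtain ⟨Q, hQd⟩ : ∃ Q, Q = 1 / ((1 - r) * (1 - θ)) := ⟨_, rfl⟩
  have hQ : 1 ≤ Q := by
    rw [hQd, le_div_iff₀ (mul_pos (by linarith) (by linarith))]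
    nlinarith
  have hkr : ∀ s : ℕ, ∑ e ∈ Icc 1 s, r ^ e * (if e ∈ E then 1 else 1 / Q) ≤ 1 := by
    intro s
    rw [hQd, hr]
    exact kraft hρ0 hρ1 hθ0 hθ1 hsum s
  obtain ⟨lam, hlam⟩ : ∃ lam, lam = Real.log (1 / ρ) + ε / 8 := ⟨_, rfl⟩
  have hlρ : 0 ≤ Real.log (1 / ρ) := Real.log_nonneg (by rw [le_div_iff₀ hρ0]; linarith)
  have hlam8 : ε / 8 ≤ lam := by rw [hlam]; linarith
  have hlamr : Real.log r⁻¹ = lam := by
    rw [hr, hlam, mul_inv, Real.log_mul (inv_pos.2 hρ0).ne' (inv_pos.2 hθ0).ne', one_div,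
      Real.log_inv θ, hθ, Real.log_exp]
    ring
  obtain ⟨κ, hκ⟩ : ∃ κ, κ = lam / (lam + ε / 8) := ⟨_, rfl⟩
  have hlam0 : 0 < lam := by linarith
  have hκ2 : 1 / 2 ≤ κ := by
    rw [hκ, div_le_div_iff₀ (by norm_num) (by linarith)]
    linarith
  have hκ1 : κ < 1 := by
    rw [hκ, div_lt_one (by linarith)]
    linarith
  have hκ0 : 0 < κ := by linarith
  have hlκ : lam / κ = lam + ε / 8 := by
    rw [hκ]
    field_simp
  have hlQ : 0 ≤ Real.log Q := Real.log_nonneg hQ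
  obtain ⟨δ, hδ⟩ : ∃ δ, δ = ε / 8 / (Real.log Q + 1) := ⟨_, rfl⟩
  have hδ0 : 0 < δ := by rw [hδ]; positivity
  -- the conditions on `u = log x`
  have hev1 : ∀ᶠ u : ℝ in Filter.atTop, Real.log u ^ 2 ≤ ε / 24 * u ^ (1 - κ) := by
    have h1 := (isLittleO_log_rpow_rpow_atTop (s := 1 - κ) 2 (by linarith)).def
      (show 0 < ε / 24 by positivity)
    filter_upwards [h1, Filter.eventually_ge_atTop 1] with u hu hu1
    rw [Real.norm_eq_abs, Real.norm_eq_abs,
      abs_of_nonneg (Real.rpow_nonneg (show (0 : ℝ) ≤ u by linarith) (1 - κ))] at hu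
    have h2 := (le_abs_self _).trans hu
    rwa [Real.rpow_two] at h2
  have hev2 : ∀ᶠ u : ℝ in Filter.atTop, 2 ≤ u ^ κ :=
    (tendsto_rpow_atTop hκ0).eventually_ge_atTop 2
  have hev3 : ∀ᶠ u : ℝ in Filter.atTop, 1 ≤ Real.log u :=
    Real.tendsto_log_atTop.eventually_ge_atTop 1
  have hev := (hev1.and hev2).and (hev3.and (Filter.eventually_ge_atTop (5 : ℝ)))
  have hevx := (Real.tendsto_log_atTop.comp tendsto_natCast_atTop_atTop).eventually hev
  obtain ⟨x0, hx0⟩ := Filter.eventually_atTop.1 hevx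
  refine ⟨δ, x0, hδ0, fun a b hb x hx => ?_⟩
  obtain ⟨⟨h1, h2⟩, h3, h4⟩ := hx0 x hx
  simp only [Function.comp_apply] at h1 h2 h3 h4
  obtain ⟨u, hu⟩ : ∃ u, u = Real.log (x : ℝ) := ⟨_, rfl⟩
  rw [← hu] at h1 h2 h3 h4 ⊢
  obtain ⟨l, hl⟩ : ∃ l, l = Real.log u := ⟨_, rfl⟩
  rw [← hl] at h1 h3 ⊢
  have hu0 : 0 < u := by linarith
  have hl0 : 0 < l := by linarith
  obtain ⟨S, hS⟩ : ∃ S : Finset ℕ, S = (Icc 1 x).filter fun n =>
      b * ∑ d ∈ n.divisors, d = a * n ∧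
        (((n.primeFactors.filter fun p => n.factorization p ∉ E).card : ℕ) : ℝ) ≤
          δ * (u / l) := ⟨_, rfl⟩
  rw [← hS]
  have hSN : ∀ N ∈ S, N ≠ 0 ∧ b * ∑ d ∈ N.divisors, d = a * N := by
    intro N hN
    rw [hS, mem_filter, mem_Icc] at hN
    exact ⟨by omega, hN.2.1⟩
  have hSu : ∀ N ∈ S, Real.log N ≤ u := by
    intro N hN
    rw [hS, mem_filter, mem_Icc] at hN
    rw [hu]
    apply Real.log_le_log
    · exact_mod_cast hN.1.1
    · exact_mod_cast hN.1.2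
  obtain ⟨Y, hY⟩ : ∃ Y, Y = ⌊u ^ κ⌋₊ := ⟨_, rfl⟩
  obtain ⟨S0, hS0⟩ : ∃ S0, S0 = ⌊u / (κ * l)⌋₊ := ⟨_, rfl⟩
  obtain ⟨M, hM⟩ : ∃ M, M = 2 * ⌊u⌋₊ + 2 := ⟨_, rfl⟩
  obtain ⟨J, hJ⟩ : ∃ J, J = ⌊δ * (u / l)⌋₊ := ⟨_, rfl⟩
  have hκu0 : 0 < u ^ κ := Real.rpow_pos_of_pos hu0 _
  have hYu : (Y : ℝ) ≤ u ^ κ := by rw [hY]; exact Nat.floor_le hκu0.le
  have huY : u ^ κ < (Y : ℝ) + 1 := by rw [hY]; exact Nat.lt_floor_add_one _
  have hY1 : 1 ≤ Y := by
    rw [hY]
    exact Nat.le_floor (by push_cast; linarith)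
  have hY2 : u ^ κ / 2 ≤ Y := by linarith
  have hY0 : (0 : ℝ) < Y := by exact_mod_cast hY1
  have hS0u : (S0 : ℝ) ≤ u / (κ * l) := by rw [hS0]; exact Nat.floor_le (by positivity)
  have hJu : (J : ℝ) ≤ δ * (u / l) := by rw [hJ]; exact Nat.floor_le (by positivity)
  have hcard := card_fin (S := S) (a := a) (b := b) hb hSN (E := E) (Y := Y) (S0 := S0) (M := M)
    (J := J) hr0 hr1.le hQ hkr hY1 (by omega) (fun N hN p => by
      by_cases hp : p ∈ N.primeFactors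
      · have h5 := exp_sum_le (hSN N hN).1 {p} (by simpa using hp) (Real.log 2) (by
          intro q hq
          rw [mem_singleton] at hq
          rw [hq]
          apply Real.log_le_log (by norm_num)
          exact_mod_cast (Nat.prime_of_mem_primeFactors hp).two_le)
        rw [sum_singleton] at h5
        have h6 := Real.log_two_gt_d9
        have h7 : u < (⌊u⌋₊ : ℝ) + 1 := Nat.lt_floor_add_one u
        have h8 : (N.factorization p : ℝ) < 2 * (⌊u⌋₊ : ℝ) + 2 := by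
          by_contra hcon
          push Not at hcon
          have h9 : (2 * (⌊u⌋₊ : ℝ) + 2) * Real.log 2 ≤ (N.factorization p : ℝ) * Real.log 2 :=
            mul_le_mul_of_nonneg_right hcon (by linarith)
          have h10 : (⌊u⌋₊ : ℝ) + 1 ≤ (2 * (⌊u⌋₊ : ℝ) + 2) * Real.log 2 := by
            have : (0 : ℝ) ≤ ⌊u⌋₊ := Nat.cast_nonneg _
            nlinarith
          have h11 := hSu N hN
          linarith
        rw [hM]
        exact_mod_cast h8
      · rw [← Nat.support_factorization, Finsupp.notMem_support_iff] at hp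
        rw [hp, hM]
        omega) (fun N hN => by
      rw [hS0]
      apply Nat.le_floor
      rw [le_div_iff₀ (by positivity)]
      refine (exp_sum_le (hSN N hN).1 _ (filter_subset _ _) (κ * l) ?_).trans (hSu N hN)
      intro p hp
      rw [mem_filter] at hp
      have h5 : u ^ κ ≤ p := by
        have : (Y : ℝ) + 1 ≤ p := by exact_mod_cast hp.2
        linarith
      have h6 := Real.log_le_log hκu0 h5
      rwa [Real.log_rpow hu0, ← hl] at h6) (fun N hN => by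
      rw [ex_sum, hJ]
      apply Nat.le_floor
      rw [hS, mem_filter] at hN
      exact hN.2.2)
  refine hcard.trans ?_
  -- the factors
  have hMu : (M : ℝ) ≤ 2 * u + 2 := by
    rw [hM]
    push_cast
    have := Nat.floor_le hu0.le
    linarith
  have hlog2 : ∀ c : ℝ, 1 ≤ c → c ≤ u ^ 2 → Real.log c ≤ 2 * l := by
    intro c hc1 hc2
    have h5 : Real.log (u ^ 2) = 2 * l := by rw [Real.log_pow, hl]; norm_num
    rw [← h5]
    exact Real.log_le_log (by linarith) hc2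
  have f1 : (M : ℝ) ^ Y ≤ Real.exp (2 * l * u ^ κ) := by
    have hM1 : (1 : ℝ) ≤ M := by
      rw [hM]
      push_cast
      have : (0 : ℝ) ≤ ⌊u⌋₊ := Nat.cast_nonneg _
      linarith
    have h5 : (M : ℝ) ^ Y = Real.exp (Y * Real.log M) := by
      rw [Real.exp_nat_mul, Real.exp_log (by linarith)]
    rw [h5]
    apply Real.exp_le_exp.2
    have h6 := hlog2 M hM1 (by nlinarith)
    have h7 : 0 ≤ Real.log M := Real.log_nonneg hM1
    calc (Y : ℝ) * Real.log M ≤ u ^ κ * (2 * l) := mul_le_mul hYu h6 h7 hκu0.le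
      _ = _ := by ring
  have f2 : r⁻¹ ^ S0 ≤ Real.exp ((lam + ε / 8) * (u / l)) := by
    have h5 : r⁻¹ ^ S0 = Real.exp (S0 * lam) := by
      rw [Real.exp_nat_mul, ← hlamr, Real.exp_log (inv_pos.2 hr0)]
    rw [h5]
    apply Real.exp_le_exp.2
    calc (S0 : ℝ) * lam ≤ u / (κ * l) * lam := mul_le_mul_of_nonneg_right hS0u hlam0.le
      _ = lam / κ * (u / l) := by field_simp
      _ = _ := by rw [hlκ]
  have f3 : Q ^ J ≤ Real.exp (ε / 8 * (u / l)) := by
    have h5 : Q ^ J = Real.exp (J * Real.log Q) := by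
      rw [Real.exp_nat_mul, Real.exp_log (by linarith)]
    rw [h5]
    apply Real.exp_le_exp.2
    calc (J : ℝ) * Real.log Q ≤ δ * (u / l) * Real.log Q := mul_le_mul_of_nonneg_right hJu hlQ
      _ ≤ δ * (u / l) * (Real.log Q + 1) :=
          mul_le_mul_of_nonneg_left (by linarith) (by positivity)
      _ = _ := by rw [hδ]; field_simp
  have f4 : (2 * (S0 : ℝ) + 3) ^ (S0 / Y + 1) ≤ Real.exp (10 * l * u ^ κ) := by
    have hS0r : (0 : ℝ) ≤ S0 := Nat.cast_nonneg _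
    have h5 : (2 * (S0 : ℝ) + 3) ^ (S0 / Y + 1) =
        Real.exp (((S0 / Y + 1 : ℕ) : ℝ) * Real.log (2 * (S0 : ℝ) + 3)) := by
      rw [Real.exp_nat_mul, Real.exp_log (by linarith)]
    rw [h5]
    apply Real.exp_le_exp.2
    have hS2 : (S0 : ℝ) ≤ 2 * u := by
      refine hS0u.trans ?_
      rw [div_le_iff₀ (by positivity)]
      have hkl : 1 / 2 ≤ κ * l := by
        calc (1 / 2 : ℝ) = 1 / 2 * 1 := by ring
          _ ≤ κ * l := mul_le_mul hκ2 h3 (by norm_num) hκ0.le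
      calc u = 2 * u * (1 / 2) := by ring
        _ ≤ 2 * u * (κ * l) := mul_le_mul_of_nonneg_left hkl (by linarith)
    have h6 := hlog2 (2 * (S0 : ℝ) + 3) (by linarith) (by nlinarith)
    have h7 : 0 ≤ Real.log (2 * (S0 : ℝ) + 3) := Real.log_nonneg (by linarith)
    have h8 : ((S0 / Y + 1 : ℕ) : ℝ) ≤ 5 * u ^ κ := by
      have h9 : ((S0 / Y : ℕ) : ℝ) ≤ (S0 : ℝ) / Y := Nat.cast_div_le
      have h10 : (S0 : ℝ) / Y ≤ 4 * u ^ (1 - κ) := by
        have h11 : u = u ^ κ * u ^ (1 - κ) := by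
          rw [← Real.rpow_add hu0]
          norm_num
        rw [div_le_iff₀ hY0]
        have h12 : 0 < u ^ (1 - κ) := Real.rpow_pos_of_pos hu0 _
        calc (S0 : ℝ) ≤ 2 * u := hS2
          _ = 4 * u ^ (1 - κ) * (u ^ κ / 2) := by
              conv_lhs => rw [h11]
              ring
          _ ≤ 4 * u ^ (1 - κ) * Y := mul_le_mul_of_nonneg_left hY2 (by positivity)
      have h11 : u ^ (1 - κ) ≤ u ^ κ :=
        Real.rpow_le_rpow_of_exponent_le (by linarith) (by linarith)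
      rw [Nat.cast_add, Nat.cast_one]
      linarith
    calc ((S0 / Y + 1 : ℕ) : ℝ) * Real.log (2 * (S0 : ℝ) + 3) ≤ 5 * u ^ κ * (2 * l) :=
          mul_le_mul h8 h6 h7 (by positivity)
      _ = _ := by ring
  have hfin : 2 * l * u ^ κ + ((lam + ε / 8) * (u / l) + ε / 8 * (u / l) + 10 * l * u ^ κ) ≤
      (Real.log (1 / ρ) + ε) * (u / l) := by
    have h5 : 12 * l * u ^ κ ≤ ε / 2 * (u / l) := by
      have h11 : u = u ^ κ * u ^ (1 - κ) := by
        rw [← Real.rpow_add hu0]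
        norm_num
      have h6 : 12 * l * u ^ κ * l ≤ ε / 2 * u := by
        calc 12 * l * u ^ κ * l = 12 * u ^ κ * l ^ 2 := by ring
          _ ≤ 12 * u ^ κ * (ε / 24 * u ^ (1 - κ)) :=
              mul_le_mul_of_nonneg_left h1 (by positivity)
          _ = ε / 2 * (u ^ κ * u ^ (1 - κ)) := by ring
          _ = ε / 2 * u := by rw [← h11]
      rw [← mul_div_assoc, le_div_iff₀ hl0]
      exact h6
    have h6 : 0 < ε * (u / l) := by positivity
    rw [hlam]
    nlinarith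
  calc (M : ℝ) ^ Y * (r⁻¹ ^ S0 * Q ^ J * (2 * (S0 : ℝ) + 3) ^ (S0 / Y + 1)) ≤
        Real.exp (2 * l * u ^ κ) * (Real.exp ((lam + ε / 8) * (u / l)) *
          Real.exp (ε / 8 * (u / l)) * Real.exp (10 * l * u ^ κ)) := by
        have hri : 0 < r⁻¹ := inv_pos.2 hr0
        have hS0r : (0 : ℝ) ≤ S0 := Nat.cast_nonneg _
        apply mul_le_mul f1 _ (by positivity) (Real.exp_pos _).le
        apply mul_le_mul _ f4 (by positivity) (by positivity)
        exact mul_le_mul f2 f3 (by positivity) (Real.exp_pos _).le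
    _ ≤ _ := by
        rw [← Real.exp_add, ← Real.exp_add, ← Real.exp_add]
        exact Real.exp_le_exp.2 hfin

end Pool.Agent.D0H37.CB
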