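import Pool.Agent.D0H37.OC.Sm

set_option autoImplicit false

/-!
Wirsing's decoding for an arbitrary abundancy and restricted exponents.
-/

open scoped Classical
open Finset

namespace Pool.Agent.D0H37.CB

open Pool.Agent.Results.MP_f02ea4_nt.FewWithKPrimes (sg_lt sp sp_mul sp_pos)
open Pool.Agent.D0H37.OC (sum_pf)

/-- one if the exponent is not in `E` -/
noncomputable def ex (E : Set ℕ) (v : ℕ) : ℕ := if v ∈ E then 0 else 1

/-- the members `A M` of `S` with `M` prime to `A`, all prime factors of `M` larger than `Y`, at most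
`s` prime factors of `M` with multiplicity, at most `J` exponents outside `E` and
`σ(M) < (t + 1) M` -/
noncomputable def Cl (S : Finset ℕ) (E : Set ℕ) (Y A s J t : ℕ) : Finset ℕ :=
  S.filter fun N => ∃ M, N = A * M ∧ A.Coprime M ∧ (∀ p ∈ M.primeFactors, Y < p) ∧
    ∑ p ∈ M.primeFactors, M.factorization p ≤ s ∧
    ∑ p ∈ M.primeFactors, ex E (M.factorization p) ≤ J ∧ ∑ d ∈ M.divisors, d < (t + 1) * M

theorem cl_mono {S : Finset ℕ} {E : Set ℕ} {Y A s J t t' : ℕ} (h : t ≤ t') :
    Cl S E Y A s J t ⊆ Cl S E Y A s J t' := by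
  intro N hN
  unfold Cl at hN ⊢
  rw [mem_filter] at hN ⊢
  obtain ⟨h1, M, h2, h3, h4, h5, h6, h7⟩ := hN
  exact ⟨h1, M, h2, h3, h4, h5, h6, h7.trans_le (Nat.mul_le_mul_right _ (by omega))⟩

theorem sig_gt {M : ℕ} (hM : M ≠ 0) (hM1 : M ≠ 1) : M < ∑ d ∈ M.divisors, d := by
  have h3 : ∑ d ∈ ({1, M} : Finset ℕ), d ≤ ∑ d ∈ M.divisors, d := by
    apply Finset.sum_le_sum_of_subset
    intro d hd
    simp only [Finset.mem_insert, Finset.mem_singleton] at hd
    rcases hd with rfl | rfl
    · simp [hM]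
    · simp [hM]
  rw [Finset.sum_pair (Ne.symm hM1)] at h3
  omega

theorem sig_pos {M : ℕ} (hM : M ≠ 0) : 0 < ∑ d ∈ M.divisors, d :=
  Finset.sum_pos (fun d hd => Nat.pos_of_mem_divisors hd) (Nat.nonempty_divisors.2 hM)

/-- the step of the decoding -/
theorem child {S : Finset ℕ} {E : Set ℕ} {Y A s J N M p k : ℕ} (hNS : N ∈ S) (hN0 : N ≠ 0)
    (hNM : N = A * M) (hcop : A.Coprime M) (hMY : ∀ p ∈ M.primeFactors, Y < p)
    (hMs : ∑ p ∈ M.primeFactors, M.factorization p ≤ s)
    (hMJ : ∑ p ∈ M.primeFactors, ex E (M.factorization p) ≤ J)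
    (hk : ∑ d ∈ M.divisors, d ≤ (k + 1) * M) (hp : p.Prime) (hpM : p ∣ M) :
    ∃ e ∈ (Icc 1 s).filter (fun e => ex E e ≤ J),
      N ∈ Cl S E Y (A * p ^ e) (s - e) (J - ex E e) k := by
  have hM0 : M ≠ 0 := by rintro rfl; simp at hNM; exact hN0 hNM
  obtain ⟨e, M', hnd, hM⟩ := Nat.exists_eq_pow_mul_and_not_dvd hM0 p hp.ne_one
  have he : 1 ≤ e := by
    by_contra hcon
    have : e = 0 := by omega
    subst this
    rw [pow_zero, one_mul] at hM
    rw [hM] at hpM
    exact hnd hpM
  have hM'0 : M' ≠ 0 := by rintro rfl; simp at hM; exact hM0 hM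
  have hcp : (p ^ e).Coprime M' := Nat.Coprime.pow_left e ((Nat.Prime.coprime_iff_not_dvd hp).2 hnd)
  have h1 := sum_pf hp he hM'0 hnd fun x => x
  have h2 := sum_pf hp he hM'0 hnd (ex E)
  rw [← hM] at h1 h2
  rw [h1] at hMs
  rw [h2] at hMJ
  refine ⟨e, ?_, ?_⟩
  · rw [mem_filter, mem_Icc]
    exact ⟨⟨he, by omega⟩, by omega⟩
  · unfold Cl
    rw [mem_filter]
    refine ⟨hNS, M', ?_, ?_, ?_, ?_, ?_, ?_⟩
    · rw [hNM, hM, mul_assoc]
    · apply Nat.Coprime.mul_left _ hcp
      rw [hM] at hcop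
      exact Nat.Coprime.coprime_mul_left_right hcop
    · intro q hq
      apply hMY q
      rw [hM, Nat.primeFactors_mul (pow_ne_zero _ hp.ne_zero) hM'0]
      exact mem_union_right _ hq
    · omega
    · omega
    · have h3 : ∑ d ∈ M.divisors, d = (∑ d ∈ (p ^ e).divisors, d) * ∑ d ∈ M'.divisors, d := by
        rw [hM]
        exact Nat.Coprime.sum_divisors_mul hcp
      have hpe0 : p ^ e ≠ 0 := pow_ne_zero _ hp.ne_zero
      have hpe1 : p ^ e ≠ 1 := by
        intro h4
        have := Nat.one_lt_pow (by omega : e ≠ 0) hp.one_lt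
        omega
      have h4 := sig_gt hpe0 hpe1
      have h5 := sig_pos hM'0
      have h6 : p ^ e * ∑ d ∈ M'.divisors, d < p ^ e * ((k + 1) * M') := by
        calc p ^ e * ∑ d ∈ M'.divisors, d < (∑ d ∈ (p ^ e).divisors, d) * ∑ d ∈ M'.divisors, d :=
              Nat.mul_lt_mul_of_pos_right h4 h5
          _ = ∑ d ∈ M.divisors, d := h3.symm
          _ ≤ (k + 1) * M := hk
          _ = p ^ e * ((k + 1) * M') := by rw [hM]; ring
      exact lt_of_mul_lt_mul_left h6 (Nat.zero_le _)

/-- the weighted sum over the exponents -/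
theorem sum_child {E : Set ℕ} {r Q P : ℝ} (hr0 : 0 < r) (hQ : 1 ≤ Q) (hP : 0 ≤ P)
    (hkr : ∀ s : ℕ, ∑ e ∈ Icc 1 s, r ^ e * (if e ∈ E then 1 else 1 / Q) ≤ 1) (s J t : ℕ)
    (f : ℕ → ℕ) (hf : ∀ e ∈ (Icc 1 s).filter (fun e => ex E e ≤ J),
      (f e : ℝ) ≤ r⁻¹ ^ (s - e) * Q ^ (J - ex E e) * P ^ t) :
    ((∑ e ∈ (Icc 1 s).filter (fun e => ex E e ≤ J), f e : ℕ) : ℝ) ≤
      r⁻¹ ^ s * Q ^ J * P ^ t := by
  have hQ0 : 0 < Q := by linarith
  push_cast
  calc ∑ e ∈ (Icc 1 s).filter (fun e => ex E e ≤ J), (f e : ℝ) ≤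
        ∑ e ∈ (Icc 1 s).filter (fun e => ex E e ≤ J),
          (r⁻¹ ^ s * Q ^ J * P ^ t) * (r ^ e * (if e ∈ E then 1 else 1 / Q)) := by
        refine sum_le_sum fun e he => (hf e he).trans (le_of_eq ?_)
        rw [mem_filter, mem_Icc] at he
        have h1 : r⁻¹ ^ (s - e) = r⁻¹ ^ s * r ^ e := by
          have h3 : r⁻¹ ^ s = r⁻¹ ^ (s - e) * r⁻¹ ^ e := by
            rw [← pow_add]
            congr 1
            omega
          rw [h3, mul_assoc, ← mul_pow, inv_mul_cancel₀ hr0.ne', one_pow, mul_one]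
        have h2 : Q ^ (J - ex E e) = Q ^ J * (if e ∈ E then 1 else 1 / Q) := by
          have h4 := he.2
          unfold ex at h4 ⊢
          split_ifs with h5
          · simp
          · rw [if_neg h5] at h4
            have h6 : Q ^ J = Q ^ (J - 1) * Q := by
              rw [← pow_succ]
              congr 1
              omega
            rw [h6]
            field_simp
        rw [h1, h2]
        ring
    _ ≤ ∑ e ∈ Icc 1 s, (r⁻¹ ^ s * Q ^ J * P ^ t) * (r ^ e * (if e ∈ E then 1 else 1 / Q)) := by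
        refine sum_le_sum_of_subset_of_nonneg (filter_subset _ _) fun e _ _ => ?_
        have : (0 : ℝ) ≤ (if e ∈ E then 1 else 1 / Q) := by
          split_ifs
          · exact zero_le_one
          · positivity
        positivity
    _ = (r⁻¹ ^ s * Q ^ J * P ^ t) *
        ∑ e ∈ Icc 1 s, r ^ e * (if e ∈ E then 1 else 1 / Q) := by rw [mul_sum]
    _ ≤ (r⁻¹ ^ s * Q ^ J * P ^ t) * 1 := mul_le_mul_of_nonneg_left (hkr s) (by positivity)
    _ = _ := mul_one _

/-- **the number of the members** -/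
theorem card_cl {S : Finset ℕ} {a b : ℕ} (hb : 0 < b)
    (hS : ∀ N ∈ S, N ≠ 0 ∧ b * ∑ d ∈ N.divisors, d = a * N) {E : Set ℕ} {Y S0 : ℕ} {r Q P : ℝ}
    (hr0 : 0 < r) (hr1 : r ≤ 1) (hQ : 1 ≤ Q) (hP : 2 * (S0 : ℝ) + 3 ≤ P)
    (hkr : ∀ s : ℕ, ∑ e ∈ Icc 1 s, r ^ e * (if e ∈ E then 1 else 1 / Q) ≤ 1) :
    ∀ s : ℕ, s ≤ S0 → ∀ A J t : ℕ,
      ((Cl S E Y A s J t).card : ℝ) ≤ r⁻¹ ^ s * Q ^ J * P ^ t := by
  have hP1 : 1 ≤ P := by
    have : (0 : ℝ) ≤ S0 := Nat.cast_nonneg _
    linarith
  have hri : 1 ≤ r⁻¹ := (one_le_inv₀ hr0).2 hr1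
  have hW1 : ∀ s J t : ℕ, (1 : ℝ) ≤ r⁻¹ ^ s * Q ^ J * P ^ t := fun s J t =>
    one_le_mul_of_one_le_of_one_le
      (one_le_mul_of_one_le_of_one_le (one_le_pow₀ hri) (one_le_pow₀ hQ)) (one_le_pow₀ hP1)
  intro s
  induction s using Nat.strong_induction_on with
  | _ s ih =>
    intro hs A J t
    by_cases hne : ∃ N ∈ Cl S E Y A s J t, N ≠ A
    · obtain ⟨N0, hN0, hN0A⟩ := hne
      have hdec : ∀ N ∈ Cl S E Y A s J t, N ∈ S ∧ N ≠ 0 ∧ ∃ M, N = A * M ∧ A.Coprime M ∧
          (∀ p ∈ M.primeFactors, Y < p) ∧ ∑ p ∈ M.primeFactors, M.factorization p ≤ s ∧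
          ∑ p ∈ M.primeFactors, ex E (M.factorization p) ≤ J ∧
          ∑ d ∈ M.divisors, d < (t + 1) * M ∧ M ≠ 0 ∧
          (b * ∑ d ∈ A.divisors, d) * ∑ d ∈ M.divisors, d = (a * A) * M := by
        intro N hN
        unfold Cl at hN
        rw [mem_filter] at hN
        obtain ⟨hNS, M, h1, h2, h3, h4, h5, h6⟩ := hN
        obtain ⟨h7, h8⟩ := hS N hNS
        have hM0 : M ≠ 0 := by rintro rfl; simp at h1; exact h7 h1
        refine ⟨hNS, h7, M, h1, h2, h3, h4, h5, h6, hM0, ?_⟩
        rw [h1, Nat.Coprime.sum_divisors_mul h2] at h8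
        rw [mul_assoc, mul_assoc, h8]
      obtain ⟨_, hN00, M0, hNM0, hcop0, _, _, _, hlt0, hM00, heq0⟩ := hdec N0 hN0
      have hA0 : A ≠ 0 := by rintro rfl; simp at hNM0; exact hN00 hNM0
      have hM01 : M0 ≠ 1 := by rintro rfl; simp at hNM0; exact hN0A hNM0
      have hU0 : b * ∑ d ∈ A.divisors, d ≠ 0 :=
        Nat.mul_ne_zero hb.ne' (sig_pos hA0).ne'
      have hV0 : a * A ≠ 0 := by
        intro h
        rw [h, zero_mul] at heq0
        have := Nat.mul_ne_zero hU0 (sig_pos hM00).ne'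
        exact this heq0
      by_cases hdvd : (b * ∑ d ∈ A.divisors, d) ∣ a * A
      · -- the quotient is an integer
        obtain ⟨c, hc⟩ := hdvd
        have hsig : ∀ M : ℕ, (b * ∑ d ∈ A.divisors, d) * ∑ d ∈ M.divisors, d = (a * A) * M →
            ∑ d ∈ M.divisors, d = c * M := by
          intro M hM
          apply Nat.eq_of_mul_eq_mul_left (Nat.pos_of_ne_zero hU0)
          rw [hM, hc, mul_assoc]
        have hM0pos : 0 < M0 := Nat.pos_of_ne_zero hM00
        have hc2 : 2 ≤ c := by
          have h1 := sig_gt hM00 hM01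
          rw [hsig M0 heq0] at h1
          by_contra hcon
          have : c ≤ 1 := by omega
          have := Nat.mul_le_mul_right M0 this
          omega
        have hct : c ≤ t := by
          rw [hsig M0 heq0] at hlt0
          have := lt_of_mul_lt_mul_right hlt0 (Nat.zero_le _)
          omega
        have hsub : Cl S E Y A s J t ⊆ (range (2 * s + 3)).biUnion fun p =>
            ((Icc 1 s).filter (fun e => ex E e ≤ J)).biUnion fun e =>
              Cl S E Y (A * p ^ e) (s - e) (J - ex E e) (t - 1) := by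
          intro N hN
          obtain ⟨hNS, hN0', M, h1, h2, h3, h4, h5, h6, h7, h8⟩ := hdec N hN
          have hcM := hsig M h8
          have hex : ∃ p ∈ M.primeFactors, p ≤ 2 * (s + 1) := by
            by_contra hcon
            push Not at hcon
            have hcard : M.primeFactors.card ≤ s := by
              refine le_trans ?_ h4
              rw [card_eq_sum_ones]
              refine sum_le_sum fun p hp => ?_
              exact (Nat.prime_of_mem_primeFactors hp).factorization_pos_of_dvd h7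
                (Nat.dvd_of_mem_primeFactors hp)
            have hlt := sg_lt (s + 1) M h7 (by omega) (by omega) hcon
            rw [hcM] at hlt
            have := Nat.mul_le_mul_right M hc2
            omega
          obtain ⟨p, hpM, hp2⟩ := hex
          obtain ⟨e, he, hmem⟩ := child (k := c - 1) hNS hN0' h1 h2 h3 h4 h5 (by
            rw [hcM, Nat.sub_add_cancel (by omega)]) (Nat.prime_of_mem_primeFactors hpM)
            (Nat.dvd_of_mem_primeFactors hpM)
          rw [mem_biUnion]
          refine ⟨p, mem_range.2 (by omega), ?_⟩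
          rw [mem_biUnion]
          exact ⟨e, he, cl_mono (by omega) hmem⟩
        have hone : ∀ p : ℕ, ((∑ e ∈ (Icc 1 s).filter (fun e => ex E e ≤ J),
            (Cl S E Y (A * p ^ e) (s - e) (J - ex E e) (t - 1)).card : ℕ) : ℝ) ≤
            r⁻¹ ^ s * Q ^ J * P ^ (t - 1) := by
          intro p
          refine sum_child hr0 hQ (by linarith) hkr s J (t - 1) _ fun e he => ?_
          rw [mem_filter, mem_Icc] at he
          exact ih (s - e) (by omega) (by omega) _ _ _
        have hcard : (Cl S E Y A s J t).card ≤ ∑ p ∈ range (2 * s + 3),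
            ∑ e ∈ (Icc 1 s).filter (fun e => ex E e ≤ J),
            (Cl S E Y (A * p ^ e) (s - e) (J - ex E e) (t - 1)).card :=
          (card_le_card hsub).trans (card_biUnion_le.trans
            (sum_le_sum fun p _ => card_biUnion_le))
        calc ((Cl S E Y A s J t).card : ℝ) ≤ ((∑ p ∈ range (2 * s + 3),
              ∑ e ∈ (Icc 1 s).filter (fun e => ex E e ≤ J),
              (Cl S E Y (A * p ^ e) (s - e) (J - ex E e) (t - 1)).card : ℕ) : ℝ) := by
              exact_mod_cast hcard
          _ = ∑ p ∈ range (2 * s + 3), ((∑ e ∈ (Icc 1 s).filter (fun e => ex E e ≤ J),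
              (Cl S E Y (A * p ^ e) (s - e) (J - ex E e) (t - 1)).card : ℕ) : ℝ) := by
              rw [Nat.cast_sum]
          _ ≤ ∑ _p ∈ range (2 * s + 3), r⁻¹ ^ s * Q ^ J * P ^ (t - 1) :=
              sum_le_sum fun p _ => hone p
          _ = (2 * s + 3 : ℕ) * (r⁻¹ ^ s * Q ^ J * P ^ (t - 1)) := by
              rw [sum_const, card_range, nsmul_eq_mul]
          _ ≤ P * (r⁻¹ ^ s * Q ^ J * P ^ (t - 1)) := by
              apply mul_le_mul_of_nonneg_right _ (by positivity)
              push_cast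
              have : (s : ℝ) ≤ S0 := by exact_mod_cast hs
              linarith
          _ = r⁻¹ ^ s * Q ^ J * P ^ t := by
              have : P ^ t = P ^ (t - 1) * P := by
                rw [← pow_succ]
                congr 1
                omega
              rw [this]
              ring
      · -- a prime is known
        rw [← Nat.factorization_prime_le_iff_dvd hU0 hV0] at hdvd
        push Not at hdvd
        obtain ⟨p, hpp, hlt⟩ := hdvd
        have hsub : Cl S E Y A s J t ⊆ ((Icc 1 s).filter (fun e => ex E e ≤ J)).biUnion fun e =>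
              Cl S E Y (A * p ^ e) (s - e) (J - ex E e) t := by
          intro N hN
          obtain ⟨hNS, hN0', M, h1, h2, h3, h4, h5, h6, h7, h8⟩ := hdec N hN
          have hpM : p ∣ M := by
            have h9 := congrArg (fun n => n.factorization p) h8
            rw [Nat.factorization_mul hU0 (sig_pos h7).ne', Nat.factorization_mul hV0 h7] at h9
            simp only [Finsupp.add_apply] at h9
            by_contra hcon
            rw [Nat.factorization_eq_zero_of_not_dvd hcon] at h9
            omega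
          obtain ⟨e, he, hmem⟩ := child (k := t) hNS hN0' h1 h2 h3 h4 h5 h6.le hpp hpM
          rw [mem_biUnion]
          exact ⟨e, he, hmem⟩
        have hcard := (card_le_card hsub).trans card_biUnion_le
        refine le_trans (by exact_mod_cast hcard) (sum_child hr0 hQ (by linarith) hkr s J t _
          fun e he => ?_)
        rw [mem_filter, mem_Icc] at he
        exact ih (s - e) (by omega) (by omega) _ _ _
    · push Not at hne
      have h1 : Cl S E Y A s J t ⊆ {A} := fun N hN => mem_singleton.2 (hne N hN)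
      have h2 := card_le_card h1
      rw [card_singleton] at h2
      exact le_trans (by exact_mod_cast h2) (hW1 s J t)

end Pool.Agent.D0H37.CB
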