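import Pool.Agent.D0H37.CB.Cl

set_option autoImplicit false

/-!
The number of the integers up to `x` with given abundancy: the finite bound.
-/

open scoped Classical
open Finset

namespace Pool.Agent.D0H37.CB

open Pool.Agent.Results.MP_f02ea4_nt.FewWithKPrimes (sp sp_mul sp_pos)
open Pool.Agent.D0H37.OC (PY mem_PY sml big big_fact big_pf sml_mul_big sml_coprime)

/-- the telescoping product -/
theorem tele (Y : ℕ) (hY : 1 ≤ Y) (F : Finset ℕ) (hF : ∀ p ∈ F, Y < p) :
    ∏ p ∈ F, ((p : ℝ) / (p - 1)) ≤ ((Y : ℝ) + F.card) / Y := by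
  have hY0 : (0 : ℝ) < Y := by exact_mod_cast hY
  induction F using Finset.induction_on_max with
  | empty => simp [hY0.ne']
  | insert a F ha ih =>
    have hna : a ∉ F := fun h => lt_irrefl _ (ha a h)
    have ih' := ih fun p hp => hF p (mem_insert_of_mem hp)
    rw [prod_insert hna, card_insert_of_notMem hna]
    have h1 : Y + F.card + 1 ≤ a := by
      have h2 : insert a F ⊆ Icc (Y + 1) a := by
        intro p hp
        rw [mem_Icc]
        refine ⟨hF p hp, ?_⟩
        rcases mem_insert.1 hp with h | h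
        · exact h.le
        · exact (ha p h).le
      have h3 := card_le_card h2
      rw [card_insert_of_notMem hna, Nat.card_Icc] at h3
      have h4 := hF a (mem_insert_self _ _)
      omega
    have h2 : (Y : ℝ) + F.card + 1 ≤ a := by exact_mod_cast h1
    have hc0 : (0 : ℝ) ≤ F.card := Nat.cast_nonneg _
    have h3 : (a : ℝ) / (a - 1) ≤ ((Y : ℝ) + F.card + 1) / (Y + F.card) := by
      rw [div_le_div_iff₀ (by linarith) (by linarith)]
      nlinarith
    calc (a : ℝ) / (a - 1) * ∏ p ∈ F, ((p : ℝ) / (p - 1)) ≤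
          ((Y : ℝ) + F.card + 1) / (Y + F.card) * (((Y : ℝ) + F.card) / Y) := by
          apply mul_le_mul h3 ih' _ (by positivity)
          refine prod_nonneg fun p hp => ?_
          have h4 : (Y : ℝ) + 1 ≤ p := by exact_mod_cast hF p (mem_insert_of_mem hp)
          exact div_nonneg (by linarith) (by linarith)
      _ = ((Y : ℝ) + ((F.card + 1 : ℕ) : ℝ)) / Y := by
          push_cast
          field_simp
          ring

/-- the abundancy of a number without small prime factors -/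
theorem sig_le {Y M : ℕ} (hY : 1 ≤ Y) (hM : M ≠ 0) (hp : ∀ p ∈ M.primeFactors, Y < p) :
    ((∑ d ∈ M.divisors, d : ℕ) : ℝ) * Y ≤ M * (Y + M.primeFactors.card) := by
  have hY0 : (0 : ℝ) < Y := by exact_mod_cast hY
  have h1 : ∑ d ∈ M.divisors, d = ∏ p ∈ M.primeFactors, sp p (M.factorization p) :=
    Nat.sum_divisors hM
  have h2 : ∏ p ∈ M.primeFactors, p ^ (M.factorization p) = M :=
    Nat.prod_factorization_pow_eq_self hM
  have h3 : ∀ p ∈ M.primeFactors, (sp p (M.factorization p) : ℝ) ≤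
      (p : ℝ) ^ (M.factorization p) * ((p : ℝ) / (p - 1)) := by
    intro p h
    have hp1 := (Nat.prime_of_mem_primeFactors h).two_le
    have hp2 : (2 : ℝ) ≤ p := by exact_mod_cast hp1
    have h4 := sp_mul p (M.factorization p) (by omega)
    have h5 : ((sp p (M.factorization p) : ℝ)) * ((p : ℝ) - 1) + 1 =
        (p : ℝ) ^ (M.factorization p + 1) := by
      have : ((sp p (M.factorization p) * (p - 1) + 1 : ℕ) : ℝ) =
          ((p ^ (M.factorization p + 1) : ℕ) : ℝ) := by rw [h4]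
      rw [Nat.cast_add, Nat.cast_mul, Nat.cast_sub (by omega)] at this
      push_cast at this
      linarith
    rw [← mul_div_assoc, ← pow_succ, le_div_iff₀ (by linarith)]
    linarith
  have h4 : ((∑ d ∈ M.divisors, d : ℕ) : ℝ) ≤
      M * ∏ p ∈ M.primeFactors, ((p : ℝ) / (p - 1)) := by
    rw [h1]
    push_cast
    calc ∏ p ∈ M.primeFactors, (sp p (M.factorization p) : ℝ) ≤
          ∏ p ∈ M.primeFactors, ((p : ℝ) ^ (M.factorization p) * ((p : ℝ) / (p - 1))) :=
          prod_le_prod (fun p _ => Nat.cast_nonneg _) h3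
      _ = _ := by
          rw [prod_mul_distrib]
          congr 1
          exact_mod_cast h2
  have h5 := tele Y hY M.primeFactors hp
  have hM0 : (0 : ℝ) ≤ M := Nat.cast_nonneg _
  calc ((∑ d ∈ M.divisors, d : ℕ) : ℝ) * Y ≤
        (M * (((Y : ℝ) + M.primeFactors.card) / Y)) * Y := by
        apply mul_le_mul_of_nonneg_right _ hY0.le
        exact h4.trans (mul_le_mul_of_nonneg_left h5 hM0)
    _ = _ := by field_simp

/-- members -/
theorem mem_cl {S : Finset ℕ} {E : Set ℕ} {N : ℕ} (hN : N ∈ S) (hN0 : N ≠ 0) {Y s J : ℕ}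
    (hY : 1 ≤ Y)
    (hs : ∑ p ∈ N.primeFactors.filter (fun p => Y < p), N.factorization p ≤ s)
    (hJ : ∑ p ∈ N.primeFactors, ex E (N.factorization p) ≤ J) :
    N ∈ Cl S E Y (sml Y N) s J (s / Y + 1) := by
  have hval : ∀ p ∈ N.primeFactors.filter (fun p => Y < p), (big Y N).factorization p =
      N.factorization p := by
    intro p hp
    rw [mem_filter] at hp
    rw [big_fact, Finsupp.filter_apply_pos]
    exact hp.2
  have hb0 : big Y N ≠ 0 := by
    intro h
    apply hN0
    rw [sml_mul_big hN0 Y, h, mul_zero]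
  have hbp : ∀ p ∈ (big Y N).primeFactors, Y < p := by
    intro p hp
    rw [big_pf, mem_filter] at hp
    exact hp.2
  have hbs : ∑ p ∈ (big Y N).primeFactors, (big Y N).factorization p ≤ s := by
    rw [big_pf, sum_congr rfl hval]
    exact hs
  unfold Cl
  rw [mem_filter]
  refine ⟨hN, big Y N, sml_mul_big hN0 Y, sml_coprime hN0 Y, hbp, hbs, ?_, ?_⟩
  · rw [big_pf, sum_congr rfl fun p hp => by rw [hval p hp]]
    refine le_trans (sum_le_sum_of_subset (filter_subset _ _)) hJ
  · have h1 := sig_le hY hb0 hbp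
    have hcard : (big Y N).primeFactors.card ≤ s := by
      refine le_trans ?_ hbs
      rw [card_eq_sum_ones]
      refine sum_le_sum fun p hp => ?_
      exact (Nat.prime_of_mem_primeFactors hp).factorization_pos_of_dvd hb0
        (Nat.dvd_of_mem_primeFactors hp)
    have h2 : (∑ d ∈ (big Y N).divisors, d) * Y ≤ big Y N * (Y + s) := by
      have h3 : ((∑ d ∈ (big Y N).divisors, d : ℕ) : ℝ) * Y ≤ big Y N * (Y + s) := by
        refine h1.trans (mul_le_mul_of_nonneg_left ?_ (Nat.cast_nonneg _))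
        have : ((big Y N).primeFactors.card : ℝ) ≤ s := by exact_mod_cast hcard
        linarith
      exact_mod_cast h3
    have h3 : Y + s < (s / Y + 1 + 1) * Y := by
      have := Nat.lt_div_mul_add hY (a := s)
      nlinarith
    have h4 : (∑ d ∈ (big Y N).divisors, d) * Y < ((s / Y + 1 + 1) * big Y N) * Y := by
      calc (∑ d ∈ (big Y N).divisors, d) * Y ≤ big Y N * (Y + s) := h2
        _ < big Y N * ((s / Y + 1 + 1) * Y) :=
            Nat.mul_lt_mul_of_pos_left h3 (Nat.pos_of_ne_zero hb0)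
        _ = _ := by ring
    exact lt_of_mul_lt_mul_right h4 (Nat.zero_le _)

/-- the number of the smooth parts -/
theorem card_smooth (S : Finset ℕ) (Y M : ℕ) (hM : 1 ≤ M)
    (h : ∀ N ∈ S, ∀ p, N.factorization p < M) : (S.image (sml Y)).card ≤ M ^ Y := by
  have hsub : S.image (sml Y) ⊆ (Fintype.piFinset fun _ : ↥(PY Y) => range M).image fun v =>
      ∏ p : ↥(PY Y), (p : ℕ) ^ v p := by
    intro A hA
    rw [mem_image] at hA
    obtain ⟨N, hN, rfl⟩ := hA
    rw [mem_image]
    refine ⟨fun p => N.factorization p, ?_, ?_⟩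
    · rw [Fintype.mem_piFinset]
      intro p
      exact mem_range.2 (h N hN p)
    · unfold sml
      rw [Finset.prod_coe_sort (PY Y) fun p => p ^ N.factorization p]
  refine (card_le_card hsub).trans (card_image_le.trans ?_)
  rw [Fintype.card_piFinset, prod_const, card_range, card_univ, Fintype.card_coe]
  apply Nat.pow_le_pow_right hM
  have h1 : PY Y ⊆ Icc 1 Y := by
    intro p hp
    obtain ⟨h2, h3⟩ := mem_PY.1 hp
    exact mem_Icc.2 ⟨h3.one_lt.le, h2⟩
  have h2 := card_le_card h1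
  rw [Nat.card_Icc] at h2
  omega

/-- **the finite bound** -/
theorem card_fin {S : Finset ℕ} {a b : ℕ} (hb : 0 < b)
    (hS : ∀ N ∈ S, N ≠ 0 ∧ b * ∑ d ∈ N.divisors, d = a * N) {E : Set ℕ} {Y S0 M J : ℕ}
    {r Q : ℝ} (hr0 : 0 < r) (hr1 : r ≤ 1) (hQ : 1 ≤ Q)
    (hkr : ∀ s : ℕ, ∑ e ∈ Icc 1 s, r ^ e * (if e ∈ E then 1 else 1 / Q) ≤ 1)
    (hY : 1 ≤ Y) (hM : 1 ≤ M) (hSM : ∀ N ∈ S, ∀ p, N.factorization p < M)
    (hs : ∀ N ∈ S, ∑ p ∈ N.primeFactors.filter (fun p => Y < p), N.factorization p ≤ S0)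
    (hJ : ∀ N ∈ S, ∑ p ∈ N.primeFactors, ex E (N.factorization p) ≤ J) :
    (S.card : ℝ) ≤ (M : ℝ) ^ Y * (r⁻¹ ^ S0 * Q ^ J * (2 * (S0 : ℝ) + 3) ^ (S0 / Y + 1)) := by
  have h1 : S ⊆ (S.image (sml Y)).biUnion fun A => Cl S E Y A S0 J (S0 / Y + 1) := by
    intro N hN
    rw [mem_biUnion]
    exact ⟨sml Y N, mem_image_of_mem _ hN, mem_cl hN (hS N hN).1 hY (hs N hN) (hJ N hN)⟩
  have h2 := (card_le_card h1).trans card_biUnion_le
  have h3 : ((∑ A ∈ S.image (sml Y), (Cl S E Y A S0 J (S0 / Y + 1)).card : ℕ) : ℝ) ≤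
      (S.image (sml Y)).card * (r⁻¹ ^ S0 * Q ^ J * (2 * (S0 : ℝ) + 3) ^ (S0 / Y + 1)) := by
    push_cast
    rw [← nsmul_eq_mul, ← sum_const]
    exact sum_le_sum fun A _ => card_cl hb hS hr0 hr1 hQ le_rfl hkr S0 le_rfl A J (S0 / Y + 1)
  have h4 : ((S.image (sml Y)).card : ℝ) ≤ (M : ℝ) ^ Y := by
    exact_mod_cast card_smooth S Y M hM hSM
  calc (S.card : ℝ) ≤ ((∑ A ∈ S.image (sml Y), (Cl S E Y A S0 J (S0 / Y + 1)).card : ℕ) : ℝ) := by
        exact_mod_cast h2
    _ ≤ _ := h3
    _ ≤ _ := by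
        apply mul_le_mul_of_nonneg_right h4
        have : 0 < r⁻¹ := inv_pos.2 hr0
        positivity

end Pool.Agent.D0H37.CB
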